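import Mathlib
import Pool.Agent.Helper11.Iso.Defs

/-!
# Vanishing contractions: a destabilising basis over an extension field
-/

universe u

open Finset Matrix

namespace Pool.Agent.Helper11.Iso

open Pool.Agent.Helper10.GIT Pool.Agent.Helper11.GIT

variable {m : ℕ} {n : Fin m → ℕ}

/-- an integral relation from a point of a convex hull -/
lemma exists_nat_comb2 {T : Set (Idx n × Idx n)}
    (h : (0 : WSpace n) ∈ convexHull ℝ (dw '' T)) :
    ∃ (ι : Type) (_ : Fintype ι) (v : ι → Idx n × Idx n) (c : ι → ℕ),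
      (∃ i, 0 < c i) ∧ (∀ i, v i ∈ T) ∧
      ∀ t a, ∑ i, (if (v i).1 t = a then c i else 0) = ∑ i, (if (v i).2 t = a then c i else 0) := by
  classical
  rw [mem_convexHull_iff_exists_fintype] at h
  obtain ⟨ι, hι, x, z, hx0, hx1, hz, hsum⟩ := h
  choose v hvT hvz using hz
  obtain ⟨φ, hφ⟩ := exists_rat_form x
  have hφx : ∀ i, 0 ≤ φ (x i) := by
    intro i
    rcases (hx0 i).eq_or_lt with h0 | h0
    · rw [← h0, map_zero]
    · exact (hφ i h0).le
  have hreal : ∀ t a, ∑ i, (if (v i).1 t = a then x i else 0) =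
      ∑ i, (if (v i).2 t = a then x i else 0) := by
    intro t a
    have h1 := congrArg (fun y : WSpace n => y ⟨t, a⟩) hsum
    simp only [← hvz] at h1
    have h2 : (∑ i, x i • dw (v i)) ⟨t, a⟩ = ∑ i, (if (v i).1 t = a then x i else 0) -
        ∑ i, (if (v i).2 t = a then x i else 0) := by
      rw [WithLp.ofLp_sum, Finset.sum_apply, ← sum_sub_distrib]
      refine sum_congr rfl fun i _ => ?_
      simp [dw, wt, mul_sub]
    rw [h2] at h1
    exact sub_eq_zero.mp h1
  have hrat : ∀ t a, ∑ i, (if (v i).1 t = a then φ (x i) else 0) =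
      ∑ i, (if (v i).2 t = a then φ (x i) else 0) := by
    intro t a
    have h2 := congrArg φ (hreal t a)
    have h3 : ∀ (p : Prop) [Decidable p] (i : ι),
        φ (if p then x i else 0) = if p then φ (x i) else 0 := by
      intro p _ i
      split_ifs
      · rfl
      · exact map_zero φ
    rw [map_sum, map_sum] at h2
    simp only [h3] at h2
    exact h2
  -- clear denominators
  obtain ⟨d, hd0, hd⟩ : ∃ d : ℕ, 0 < d ∧ ∀ i, ∃ c : ℕ, (d : ℚ) * φ (x i) = c := by
    refine ⟨∏ i, (φ (x i)).den, prod_pos fun i _ => (φ (x i)).den_pos, fun i => ?_⟩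
    obtain ⟨d', hd'⟩ := dvd_prod_of_mem (fun i => (φ (x i)).den) (mem_univ i)
    rw [hd']
    refine ⟨d' * (φ (x i)).num.toNat, ?_⟩
    have h1 : ((φ (x i)).num.toNat : ℚ) = (φ (x i)).num := by
      have : ((φ (x i)).num.toNat : ℤ) = (φ (x i)).num :=
        Int.toNat_of_nonneg (Rat.num_nonneg.mpr (hφx i))
      exact_mod_cast this
    push_cast
    rw [h1]
    have h2 : ((φ (x i)).den : ℚ) * φ (x i) = (φ (x i)).num := Rat.den_mul_eq_num _
    calc ((φ (x i)).den : ℚ) * d' * φ (x i) = d' * ((φ (x i)).den * φ (x i)) := by ring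
      _ = _ := by rw [h2]
  choose c hc using hd
  refine ⟨ι, hι, v, c, ?_, hvT, fun t a => ?_⟩
  · obtain ⟨i, hi⟩ : ∃ i, 0 < x i := by
      by_contra hcon
      push Not at hcon
      have : ∑ i, x i ≤ 0 := sum_nonpos fun i _ => hcon i
      rw [hx1] at this
      linarith
    refine ⟨i, ?_⟩
    have h1 : (0 : ℚ) < c i := by
      rw [← hc i]
      exact mul_pos (by exact_mod_cast hd0) (hφ i hi)
    exact_mod_cast h1
  · have h1 : ((∑ i, (if (v i).1 t = a then c i else 0) : ℕ) : ℚ) =
        ((∑ i, (if (v i).2 t = a then c i else 0) : ℕ) : ℚ) := by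
      push_cast
      have h3 : ∀ (p : Prop) [Decidable p] (i : ι),
          (if p then (c i : ℚ) else 0) = d * (if p then φ (x i) else 0) := by
        intro p _ i
        split_ifs
        · exact (hc i).symm
        · rw [mul_zero]
      simp only [h3, ← mul_sum]
      rw [hrat t a]
    exact_mod_cast h1

/-- a family of elements of a field no polynomial of which without constant term is `1` lies in
the maximal ideal of a valuation ring -/
lemma exists_valuation {Ω F : Type*} [Field Ω] [Field F] [Algebra Ω F] (gens : Set F)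
    (J : Submodule Ω F) (hJ1 : (1 : F) ∉ J)
    (hJ : ∀ l : List F, l ≠ [] → (∀ x ∈ l, x ∈ gens) → l.prod ∈ J) :
    ∃ V : ValuationSubring F, (∀ a : Ω, algebraMap Ω F a ∈ V) ∧ ∀ x ∈ gens, x ∈ V.nonunits := by
  let A : Subalgebra Ω F := Algebra.adjoin Ω gens
  have hgA : ∀ x ∈ gens, x ∈ A := fun x hx => Algebra.subset_adjoin hx
  let I : Ideal A.toSubring := Ideal.span {x | (x : F) ∈ gens}
  have key : ∀ x ∈ I, ∀ a ∈ A, a * (x : F) ∈ J := by
    intro x hx
    induction hx using Submodule.span_induction with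
    | mem x hx =>
      intro a ha
      have h1 : a ∈ Submodule.span Ω (Submonoid.closure gens : Set F) := by
        rw [← Algebra.adjoin_eq_span]
        exact ha
      induction h1 using Submodule.span_induction with
      | mem a ha' =>
        obtain ⟨l, hl, rfl⟩ := Submonoid.exists_list_of_mem_closure ha'
        have h2 := hJ (l ++ [(x : F)]) (by simp) (by
          intro y hy
          rw [List.mem_append, List.mem_singleton] at hy
          rcases hy with hy | rfl
          · exact hl y hy
          · exact hx)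
        rwa [List.prod_append, List.prod_singleton] at h2
      | zero => rw [zero_mul]; exact J.zero_mem
      | add a b ha' hb' iha ihb =>
        rw [add_mul]
        refine J.add_mem (iha ?_) (ihb ?_)
        · change a ∈ Subalgebra.toSubmodule A
          rw [Algebra.adjoin_eq_span]; exact ha'
        · change b ∈ Subalgebra.toSubmodule A
          rw [Algebra.adjoin_eq_span]; exact hb'
      | smul c a ha' iha =>
        rw [smul_mul_assoc]
        refine J.smul_mem _ (iha ?_)
        change a ∈ Subalgebra.toSubmodule A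
        rw [Algebra.adjoin_eq_span]; exact ha'
    | zero => intro a _; rw [show ((0 : A.toSubring) : F) = 0 from rfl, mul_zero]; exact J.zero_mem
    | add x y _ _ ihx ihy =>
      intro a ha
      rw [show ((x + y : A.toSubring) : F) = (x : F) + y from rfl, mul_add]
      exact J.add_mem (ihx a ha) (ihy a ha)
    | smul b x _ ihx =>
      intro a ha
      rw [show ((b • x : A.toSubring) : F) = (b : F) * x from rfl, ← mul_assoc]
      exact ihx _ (A.mul_mem ha b.2)
  have hI : I ≠ ⊤ := by
    intro h
    apply hJ1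
    have h1 := key 1 (by rw [h]; exact Submodule.mem_top) 1 A.one_mem
    rwa [one_mul] at h1
  obtain ⟨V, hAV, hV⟩ := Ideal.image_subset_nonunits_valuationSubring I hI
  refine ⟨V, fun a => hAV (A.algebraMap_mem a), fun x hx => hV ⟨⟨x, hgA x hx⟩, ?_, rfl⟩⟩
  exact Ideal.subset_span hx

/-- the coordinates of the contragredient translates -/
lemma map_dcoord {R F : Type*} [CommRing R] [Field F] (ι : MvPolynomial (GV n) R →+* F)
    (hdet : ∀ t, ι (gen n R t).det ≠ 0) (y : Idx n → R) (w : Idx n) :
    ι (dcoord y w) = ι (gdet n R) *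
      act (contra fun t => (gen n R t).map ι) (fun w' => ι (MvPolynomial.C (y w'))) w := by
  have h1 : ∀ t, ((gen n R t).adjugate)ᵀ.map ι =
      ι (gen n R t).det • contra (fun t => (gen n R t).map ι) t := by
    intro t
    have h2 : ι (gen n R t).det = ((gen n R t).map ι).det := RingHom.map_det ι _
    have h3 : ((gen n R t).adjugate)ᵀ.map ι = ((gen n R t).map ι).adjugateᵀ := by
      rw [← RingHom.mapMatrix_apply, ← RingHom.mapMatrix_apply, ← RingHom.map_adjugate]
      rfl
    have h4 : IsUnit ((gen n R t).map ι).det := by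
      rw [← h2]; exact (hdet t).isUnit
    rw [h3, h2]
    unfold contra
    rw [← transpose_smul, Matrix.inv_def, smul_smul, Ring.inverse_eq_inv', mul_inv_cancel₀ (h4.ne_zero),
      one_smul]
  have h5 := congrFun (act_map ι (fun t => ((gen n R t).adjugate)ᵀ)
    (fun w' => MvPolynomial.C (y w'))) w
  change act _ _ w = ι (dcoord y w) at h5
  rw [← h5, act_apply, act_apply, mul_sum]
  refine sum_congr rfl fun w' _ => ?_
  simp only [h1, Matrix.smul_apply, smul_eq_mul, prod_mul_distrib]
  rw [gdet, genDet, map_prod]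
  simp only [pow_one]
  ring

/-- the valuation ring in whose maximal ideal all products of coordinates lie -/
lemma exists_valuation_coord {Ω : Type u} [Field Ω] [CharZero Ω] {P Q : Set (Idx n → Ω)}
    (hA : ∀ (k : ℕ), 0 < k → ∀ (z y : Fin k → Idx n → Ω) (w w' : Fin k → Idx n),
      (∀ r, z r ∈ P) → (∀ r, y r ∈ Q) →
      fis (gdet n Ω ^ k) (∏ r, coord (z r) (w r) * dcoord (y r) (w' r)) = 0)
    {F : Type u} [Field F] [Algebra (MvPolynomial (GV n) Ω) F]
    [IsFractionRing (MvPolynomial (GV n) Ω) F] :
    ∃ V : ValuationSubring F,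
      (∀ a : Ω, algebraMap (MvPolynomial (GV n) Ω) F (MvPolynomial.C a) ∈ V) ∧
      ∀ z ∈ P, ∀ y ∈ Q, ∀ w w',
        algebraMap (MvPolynomial (GV n) Ω) F (coord z w * dcoord y w') /
          algebraMap (MvPolynomial (GV n) Ω) F (gdet n Ω) ∈ V.nonunits := by
  classical
  set R := MvPolynomial (GV n) Ω with hR
  set ι : R →+* F := algebraMap R F with hι
  have hιinj : Function.Injective ι := IsFractionRing.injective R F
  set D : R := gdet n Ω with hD
  have hD0 : ι D ≠ 0 := by
    rw [Ne, map_eq_zero_iff ι hιinj]; exact genDet_ne_zero _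
  let _ : Algebra Ω F := (ι.comp MvPolynomial.C).toAlgebra
  have halg : ∀ a : Ω, algebraMap Ω F a = ι (MvPolynomial.C a) := fun a => rfl
  have hshift : ∀ (x : F) (d e : ℕ) (p : R), ι p = x * ι D ^ d → fis (D ^ d) p = 0 →
      ι (p * D ^ e) = x * ι D ^ (d + e) ∧ fis (D ^ (d + e)) (p * D ^ e) = 0 := by
    intro x d e p h1 h2
    refine ⟨by rw [map_mul, map_pow, h1, pow_add, mul_assoc], ?_⟩
    obtain ⟨β, hβ⟩ := fis_genDet_pow (n := n) (Ω := Ω) (fun _ => 1) d e
    change fis (genDet n Ω (fun _ => 1) ^ (d + e)) (p * genDet n Ω (fun _ => 1) ^ e) = 0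
    rw [hβ]
    change β * fis (D ^ d) p = 0
    rw [h2, mul_zero]
  let J : Submodule Ω F :=
    { carrier := {x | ∃ (d : ℕ) (p : R), ι p = x * ι D ^ d ∧ fis (D ^ d) p = 0}
      add_mem' := by
        rintro x y ⟨d, p, h1, h2⟩ ⟨d', p', h1', h2'⟩
        obtain ⟨h3, h4⟩ := hshift x d d' p h1 h2
        obtain ⟨h3', h4'⟩ := hshift y d' d p' h1' h2'
        refine ⟨d + d', p * D ^ d' + p' * D ^ d, ?_, ?_⟩
        · rw [map_add, h3, h3', add_comm d' d, add_mul]
        · rw [map_add, h4]
          rw [add_comm d' d] at h4'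
          rw [h4', add_zero]
      zero_mem' := ⟨0, 0, by rw [map_zero, zero_mul], map_zero _⟩
      smul_mem' := by
        rintro c x ⟨d, p, h1, h2⟩
        refine ⟨d, c • p, ?_, ?_⟩
        · rw [MvPolynomial.smul_eq_C_mul, map_mul, h1, Algebra.smul_def, halg, mul_assoc]
        · rw [map_smul, h2, smul_zero] }
  have hJ : ∀ x, x ∈ J ↔ ∃ (d : ℕ) (p : R), ι p = x * ι D ^ d ∧ fis (D ^ d) p = 0 :=
    fun x => Iff.rfl
  obtain ⟨V, hV1, hV2⟩ := exists_valuation (Ω := Ω)
    {f : F | ∃ z ∈ P, ∃ y ∈ Q, ∃ w w', f = ι (coord z w * dcoord y w') / ι D} J (by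
      rw [hJ]
      rintro ⟨d, p, h1, h2⟩
      rw [one_mul, ← map_pow] at h1
      rw [hιinj h1] at h2
      exact fis_genDet_self (n := n) (Ω := Ω) (fun _ => 1) d h2) (by
      intro l hl hl'
      rw [hJ]
      have h2 : ∀ i : Fin l.length, ∃ z ∈ P, ∃ y ∈ Q, ∃ w w',
          l.get i = ι (coord z w * dcoord y w') / ι D := fun i => hl' _ (List.get_mem l i)
      choose z hz y hy w w' hw using h2
      have h3 : l.prod = ∏ i : Fin l.length, l.get i := by
        rw [← List.prod_ofFn, List.ofFn_get]
      refine ⟨l.length, ∏ i, coord (z i) (w i) * dcoord (y i) (w' i), ?_,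
        hA _ (List.length_pos_iff.mpr hl) z y w w' hz hy⟩
      rw [h3, prod_congr rfl fun i _ => hw i, prod_div_distrib, prod_const, card_univ,
        Fintype.card_fin, div_mul_cancel₀ _ (pow_ne_zero _ hD0), map_prod])
  exact ⟨V, fun a => hV1 a, fun z hz y hy w w' => hV2 _ ⟨z, hz, y, hy, w, w', rfl⟩⟩

/-- a destabilising basis from vanishing pairings -/
theorem exists_bad2_of {Ω : Type u} [Field Ω] [CharZero Ω] {P Q : Set (Idx n → Ω)}
    (hA : ∀ (k : ℕ), 0 < k → ∀ (z y : Fin k → Idx n → Ω) (w w' : Fin k → Idx n),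
      (∀ r, z r ∈ P) → (∀ r, y r ∈ Q) →
      fis (gdet n Ω ^ k) (∏ r, coord (z r) (w r) * dcoord (y r) (w' r)) = 0) :
    ∃ (κ : Type u) (_ : Field κ) (_ : Algebra Ω κ) (h : Mats n κ),
      (∀ t, IsUnit (h t).det) ∧ Bad2 h (ext κ P) (ext κ Q) := by
  classical
  set R := MvPolynomial (GV n) Ω with hR
  let F := FractionRing R
  set ι : R →+* F := algebraMap R F with hι
  have hιinj : Function.Injective ι := IsFractionRing.injective R F
  obtain ⟨V, hΩ, hgen⟩ := exists_valuation_coord hA (F := F)
  have hdet : ∀ t, ι (gen n Ω t).det ≠ 0 := by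
    intro t
    rw [Ne, map_eq_zero_iff ι hιinj]
    exact det_gen_ne_zero t
  -- scalars
  let ψ : Ω →+* V := (ι.comp MvPolynomial.C).codRestrict V.toSubring hΩ
  -- Smith form
  let G : Mats n F := fun t => (gen n Ω t).map ι
  have hGdet : ∀ t, IsUnit (G t).det := by
    intro t
    have h2 : ι (gen n Ω t).det = (G t).det := RingHom.map_det ι _
    rw [← h2]
    exact (hdet t).isUnit
  choose k h d hk hh hG using fun t => hasSmith_fin (V := V) (n t) (G t)
  have hG' : G = (fun t => (k t).map V.subtype) * (fun t => diagonal (d t)) *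
      (fun t => (h t).map V.subtype) := funext hG
  have hd0 : ∀ t a, d t a ≠ 0 := by
    intro t a h0
    have h1 := (hGdet t).ne_zero
    rw [hG t, det_mul, det_mul, det_diagonal, prod_eq_zero (mem_univ a) h0, mul_zero,
      zero_mul] at h1
    exact h1 rfl
  -- inverses
  let kc : Mats n V := fun t => ((k t)⁻¹)ᵀ
  let hc : Mats n V := fun t => ((h t)⁻¹)ᵀ
  have hmapinv : ∀ {t : Fin m} (g : Matrix (Fin (n t)) (Fin (n t)) V), IsUnit g.det →
      (g⁻¹).map V.subtype = (g.map V.subtype)⁻¹ := by
    intro t g hg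
    refine (Matrix.inv_eq_left_inv ?_).symm
    rw [← Matrix.map_mul, nonsing_inv_mul _ hg, Matrix.map_one _ (map_zero _) (map_one _)]
  have hcG : contra G = (fun t => (kc t).map V.subtype) * (fun t => diagonal fun a => (d t a)⁻¹) *
      (fun t => (hc t).map V.subtype) := by
    funext t
    rw [Pi.mul_apply, Pi.mul_apply]
    change ((G t)⁻¹)ᵀ = _
    have hdiag : (diagonal (d t))⁻¹ = diagonal fun a => (d t a)⁻¹ := by
      refine Matrix.inv_eq_left_inv ?_
      rw [diagonal_mul_diagonal, ← diagonal_one]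
      congr 1
      funext a
      exact inv_mul_cancel₀ (hd0 t a)
    rw [hG t, Matrix.mul_inv_rev, Matrix.mul_inv_rev, transpose_mul, transpose_mul, hdiag,
      diagonal_transpose, ← hmapinv _ (hk t), ← hmapinv _ (hh t)]
    rfl
  have hkc : ∀ t, IsUnit (kc t).det := by
    intro t
    change IsUnit ((k t)⁻¹)ᵀ.det
    rw [det_transpose]
    exact (isUnit_nonsing_inv_det_iff).mpr (hk t)
  -- the valuations of the coordinates
  have hval1 : ∀ z ∈ P, ∀ y ∈ Q, ∀ w w', V.valuation
      (act G (fun w => ι (MvPolynomial.C (z w))) w *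
        act (contra G) (fun w => ι (MvPolynomial.C (y w))) w') < 1 := by
    intro z hz y hy w w'
    have h1 := V.mem_nonunits_iff.mp (hgen z hz y hy w w')
    have h2 := congrFun (act_map ι (gen n Ω) (fun w' => MvPolynomial.C (z w'))) w
    change act G _ w = ι (coord z w) at h2
    have h3 := map_dcoord ι hdet y w'
    change _ = _ * act (contra G) _ w' at h3
    rw [h2]
    have h4 : ι (coord z w) * act (contra G) (fun w => ι (MvPolynomial.C (y w))) w' =
        ι (coord z w * dcoord y w') / ι (gdet n Ω) := by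
      rw [map_mul, h3, eq_div_iff (by
        rw [Ne, map_eq_zero_iff ι hιinj]; exact genDet_ne_zero _)]
      ring
    rw [h4]
    exact h1
  have hact : ∀ (g : Mats n V) (u : Idx n → F) (d' : ∀ t, Fin (n t) → F) (g' : Mats n V)
      (x : Idx n → F), (∀ t, IsUnit (g t).det) →
      act (fun t => (g t).map V.subtype * diagonal (d' t) * (g' t).map V.subtype) x = u →
      ∀ w, (∏ t, d' t (w t)) * act (fun t => (g' t).map V.subtype) x w =
        act (fun t => ((g t)⁻¹).map V.subtype) u w := by
    intro g u d' g' x hg hu w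
    have h1 : (fun t => (g t).map V.subtype * diagonal (d' t) * (g' t).map V.subtype) =
        (fun t => (g t).map V.subtype) * (fun t => diagonal (d' t)) *
        (fun t => (g' t).map V.subtype) := rfl
    rw [h1, act_mul, act_mul] at hu
    have h5 := congrArg (act (fun t => ((g t)⁻¹).map V.subtype)) hu
    rw [← act_mul] at h5
    have h6 : (fun t => ((g t)⁻¹).map V.subtype) * (fun t => (g t).map V.subtype) =
        (1 : Mats n F) := by
      funext t
      rw [Pi.mul_apply, ← Matrix.map_mul, nonsing_inv_mul _ (hg t),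
        Matrix.map_one _ (map_zero _) (map_one _)]
      rfl
    rw [h6, act_one] at h5
    rw [← h5, act_diagonal]
  have hle : ∀ (g : Mats n V) (w w' : Idx n),
      V.valuation (∏ t, ((g t).map V.subtype) (w t) (w' t)) ≤ 1 := by
    intro g w w'
    rw [V.valuation_le_one_iff]
    exact prod_mem fun t _ => Subtype.mem _
  have hval2 : ∀ z ∈ P, ∀ y ∈ Q, ∀ w w', V.valuation
      (((∏ t, d t (w t)) * V.subtype (act h (fun w => ψ (z w)) w)) *
        ((∏ t, (d t (w' t))⁻¹) * V.subtype (act hc (fun w => ψ (y w)) w'))) < 1 := by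
    intro z hz y hy w w'
    have h1 := congrFun (act_map V.subtype h (fun w => ψ (z w))) w
    have h1' := congrFun (act_map V.subtype hc (fun w => ψ (y w))) w'
    rw [← h1, ← h1', hact k (act G fun w => ι (MvPolynomial.C (z w))) d h _ hk (by
        rw [hG']; rfl) w,
      hact kc (act (contra G) fun w => ι (MvPolynomial.C (y w))) (fun t a => (d t a)⁻¹) hc _ hkc (by
        rw [hcG]; rfl) w', act_apply, act_apply, sum_mul_sum]
    refine Valuation.map_sum_lt _ one_ne_zero fun w1 _ => ?_
    refine Valuation.map_sum_lt _ one_ne_zero fun w2 _ => ?_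
    rw [mul_mul_mul_comm, map_mul, map_mul]
    refine lt_of_le_of_lt (mul_le_of_le_one_left' ?_) (hval1 z hz y hy w1 w2)
    exact mul_le_one' (hle _ _ _) (hle _ _ _)
  -- the residue field
  let κ := IsLocalRing.ResidueField V
  let res : V →+* κ := IsLocalRing.residue V
  let _ : Algebra Ω κ := (res.comp ψ).toAlgebra
  have hcontra : contra (fun t => (h t).map res) = fun t => (hc t).map res := by
    funext t
    change (((h t).map res)⁻¹)ᵀ = ((h t)⁻¹)ᵀ.map res
    rw [transpose_map]
    congr 1
    refine Matrix.inv_eq_left_inv ?_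
    rw [← Matrix.map_mul, nonsing_inv_mul _ (hh t), Matrix.map_one _ (map_zero _) (map_one _)]
  refine ⟨κ, inferInstance, inferInstance, fun t => (h t).map res, fun t => ?_, ?_⟩
  · have h1 : ((h t).map res).det = res (h t).det := (RingHom.map_det res (h t)).symm
    rw [h1]
    exact (hh t).map res
  · intro hbad
    obtain ⟨ι', hι', v, c, ⟨i₀, hi₀⟩, hv, hsum⟩ := exists_nat_comb2 hbad
    -- units
    have hunit : ∀ (g : Mats n V) (z : Idx n → Ω) (w : Idx n),
        act (fun t => (g t).map res) (fun w' => algebraMap Ω κ (z w')) w ≠ 0 →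
        V.valuation (V.subtype (act g (fun w' => ψ (z w')) w)) = 1 := by
      intro g z w hw
      have h2 : act (fun t => (g t).map res) (fun w' => algebraMap Ω κ (z w')) w =
          res (act g (fun w' => ψ (z w')) w) := congrFun (act_map res g _) w
      rw [h2] at hw
      have h3 : IsUnit (act g (fun w' => ψ (z w')) w) := by
        by_contra h4
        exact hw ((IsLocalRing.residue_eq_zero_iff _).mpr h4)
      exact (V.valuation_eq_one_iff _).mp h3
    have hratio : ∀ i, V.valuation ((∏ t, d t ((v i).1 t)) * ∏ t, (d t ((v i).2 t))⁻¹) < 1 := by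
      intro i
      obtain ⟨h1, h2⟩ := hv i
      rw [ext, supp_image] at h1
      rw [ext, hcontra, supp_image] at h2
      obtain ⟨z, hz, hzw⟩ := h1
      obtain ⟨y, hy, hyw⟩ := h2
      have h3 := hval2 z hz y hy (v i).1 (v i).2
      rw [map_mul, map_mul, map_mul, hunit h z _ hzw, hunit hc y _ hyw, mul_one, mul_one,
        ← map_mul] at h3
      exact h3
    have hprod1 : (∏ i, ((∏ t, d t ((v i).1 t)) * ∏ t, (d t ((v i).2 t))⁻¹) ^ c i) = 1 := by
      have h1 : ∀ (p : ι' → Idx n), (∏ i, (∏ t, d t (p i t)) ^ c i) =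
          ∏ t, ∏ a, d t a ^ ∑ i, (if p i t = a then c i else 0) := by
        intro p
        calc (∏ i, (∏ t, d t (p i t)) ^ c i) = ∏ t, ∏ i, d t (p i t) ^ c i := by
              rw [prod_comm]
              exact prod_congr rfl fun i _ => (prod_pow _ _ _).symm
          _ = _ := by
              refine prod_congr rfl fun t _ => ?_
              rw [← prod_fiberwise (s := univ) (g := fun i => p i t)]
              refine prod_congr rfl fun a _ => ?_
              rw [← prod_pow_eq_pow_sum, prod_filter]
              refine prod_congr rfl fun i _ => ?_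
              split_ifs with h1
              · rw [h1]
              · rw [pow_zero]
      simp only [mul_pow, prod_mul_distrib, prod_inv_distrib, inv_pow]
      rw [h1 fun i => (v i).1, h1 fun i => (v i).2]
      simp only [hsum]
      refine mul_inv_cancel₀ ?_
      exact prod_ne_zero_iff.mpr fun t _ => prod_ne_zero_iff.mpr fun a _ => pow_ne_zero _ (hd0 t a)
    have hlt : V.valuation
        (∏ i, ((∏ t, d t ((v i).1 t)) * ∏ t, (d t ((v i).2 t))⁻¹) ^ c i) < 1 := by
      rw [map_prod, ← mul_prod_erase univ _ (mem_univ i₀), map_pow]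
      refine lt_of_le_of_lt (mul_le_of_le_one_right' ?_) (pow_lt_one₀ zero_le (hratio i₀) hi₀.ne')
      refine prod_le_one' fun i _ => ?_
      rw [map_pow]
      exact pow_le_one' (hratio i).le _
    rw [hprod1, map_one] at hlt
    exact lt_irrefl _ hlt

end Pool.Agent.Helper11.Iso
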